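import Pool.Agent.R383.PC.Rough

set_option autoImplicit false

open Polynomial Pool.Agent.W432.WB Pool.Agent.W432.HK Pool.Agent.Y227.SO

/-!
# Operators of any order with exponent differences without small primes in the denominators

Proof. Suppose that the reductions of the operator modulo large primes `p` with `a p = -1` modulo a
common denominator `N` of the exponents have a full basis of rational solutions. Then the numbers
`⟨a λ⟩`, `λ` the exponents, satisfy the Weyl inequalities (starting result on operators). Let `D` be
a common denominator of the differences of exponents at the same point without small prime factors,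
and not a denominator of the sums of exponents, one at each point. By Dirichlet's theorem on
simultaneous approximation there is a multiplier `a` prime to `N` such that the multiples by `a` of
all the exponent differences are `n` times rational numbers very close to integers; then one of the
Weyl inequalities is violated. (For systems this argument is due to helper927, see
`MP_ba03d2_ag.RoughExponentDifferences`; the arithmetic part is taken from there.)
-/

namespace Pool.Agent.Results.MP_aa40d3_nt.RoughExponentDifferences

/-- Let `L = ∑ b k ∂ ^ k` be an operator of order `n ≥ 1` with integral polynomial coefficients,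
Fuchsian, with finite singular points among the algebraic numbers `α j`, `j = 1, …, m`, `m ≥ 1`,
with the rational exponents `lam j l` at `α j` and the rational degrees `phi l` of the solutions at
infinity; reducible or irreducible, with arbitrary accessory parameters. Let `D > 0` be a common
denominator of the differences `lam j l - lam j l'` and `phi l - phi l'` of two exponents at the
same point (for semisimple local monodromy this means that the local monodromies have orders
dividing `D` in the projective linear group), all of whose prime factors exceed
`(4 n ^ 2 (m + 1)) ^ ((m + 1) (n - 1))`. Assume that `D` times the sum `∑ j, lam j (κ j) - phi s` is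
not an integer, for some choice of the indices `κ j`, `s` (equivalently, for all).

Then for every common denominator `N` of all the exponents there is an integer `a` prime to `N` such
that for all large primes `p` with `a p = -1` modulo `N` the reduction of `L` modulo `p` does not
have a full basis of rational solutions. So it is not true that the reductions have a full basis of
rational solutions for almost all primes; the open implication of the conjecture holds for `L`. -/
theorem result {m n : ℕ} (hm : 1 ≤ m) (hn : 1 ≤ n) (b : Fin (n + 1) → ℤ[X])
    (α : Fin m → AlgebraicClosure ℚ) (lam : Fin m → Fin n → ℚ) (phi : Fin n → ℚ)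
    (hF : FuchsianWith b α lam phi) (D : ℕ) (hD : 0 < D)
    (hrough : ∀ q : ℕ, q.Prime → q ∣ D → (4 * n ^ 2 * (m + 1)) ^ ((m + 1) * (n - 1)) < q)
    (hDlam : ∀ j l l', ∃ z : ℤ, (D : ℚ) * (lam j l - lam j l') = z)
    (hDphi : ∀ l l', ∃ z : ℤ, (D : ℚ) * (phi l - phi l') = z)
    (κ : Fin m → Fin n) (s : Fin n)
    (hclass : ¬ ∃ z : ℤ, (D : ℚ) * (∑ j, lam j (κ j) - phi s) = z) :
    (∀ N, CommonDen lam phi N → ∃ a : ℤ, IsCoprime a (N : ℤ) ∧
      ∃ P₀ : ℕ, ∀ p : ℕ, P₀ < p → (N : ℤ) ∣ a * p + 1 → ∀ _hp : Fact p.Prime, ¬ FullMod b p) ∧
    ¬ Cond b ∧ (Cond b → FullAlg b) := by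
  have h1 : ∀ N, CommonDen lam phi N → ∃ a : ℤ, IsCoprime a (N : ℤ) ∧
      ∃ P₀ : ℕ, ∀ p : ℕ, P₀ < p → (N : ℤ) ∣ a * p + 1 → ∀ _hp : Fact p.Prime, ¬ FullMod b p :=
    fun N hN => Pool.Agent.R383.PC.rough_op hm hn b α lam phi hF D hD hrough hDlam hDphi κ s
      hclass N hN
  have h2 : ¬ Cond b := by
    intro hc
    obtain ⟨N, hN⟩ := exists_commonDen lam phi
    obtain ⟨a, ha, P₀, hP₀⟩ := h1 N hN
    obtain ⟨p, hp1, hp2, hp3, hp4⟩ := cond_infinite hc hN.1 ha P₀
    exact absurd hp4 (hP₀ p hp1 hp2 hp3)
  exact ⟨h1, h2, fun h => absurd h h2⟩

end Pool.Agent.Results.MP_aa40d3_nt.RoughExponentDifferences
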